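import Pool.Agent.helper68.AM.SpecX

/-!
Project sl, module XZ: nodes of the tree and primitive vectors.
-/

set_option autoImplicit false

namespace AM

open Pool.Agent.helper72.Sq

/-- the mediant of a node -/
def XZ_med : List Bool → ℕ × ℕ
  | [] => (1, 1)
  | true :: w => ((XZ_med w).1 + (XZ_med w).2, (XZ_med w).2)
  | false :: w => ((XZ_med w).1, (XZ_med w).1 + (XZ_med w).2)

theorem XZ_pos (w : List Bool) : 1 ≤ (XZ_med w).1 ∧ 1 ≤ (XZ_med w).2 := by
  induction w with
  | nil => exact ⟨le_rfl, le_rfl⟩
  | cons b w ih =>
    obtain ⟨h1, h2⟩ := ih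
    cases b with
    | true => exact ⟨le_trans h1 (Nat.le_add_right _ _), h2⟩
    | false => exact ⟨h1, le_trans h1 (Nat.le_add_right _ _)⟩

theorem XZ_cop (w : List Bool) : Nat.Coprime (XZ_med w).1 (XZ_med w).2 := by
  induction w with
  | nil => exact Nat.coprime_one_left 1
  | cons b w ih =>
    cases b with
    | true =>
      change Nat.Coprime ((XZ_med w).1 + (XZ_med w).2) (XZ_med w).2
      rw [Nat.coprime_add_self_left]; exact ih
    | false =>
      change Nat.Coprime (XZ_med w).1 ((XZ_med w).1 + (XZ_med w).2)
      rw [Nat.coprime_self_add_right]; exact ih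

theorem XZ_lam (w : List Bool) : ∀ P : Tri,
    Lam P (XZ_med w).1 (XZ_med w).2 = len (desc w P).2.2 := by
  induction w with
  | nil =>
    intro P
    change Lam P 1 1 = len P.2.2
    have := Lam_R P 1 0 le_rfl
    rw [Nat.add_zero] at this
    rw [this, Lam_zero, Nat.cast_one, one_mul]
    rfl
  | cons b w ih =>
    intro P
    cases b with
    | true =>
      change Lam P ((XZ_med w).1 + (XZ_med w).2) (XZ_med w).2 = len (desc w (Lm P)).2.2
      rw [Lam_L _ _ _ (XZ_pos w).1, ih]
    | false =>
      change Lam P (XZ_med w).1 ((XZ_med w).1 + (XZ_med w).2) = len (desc w (Rm P)).2.2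
      rw [Lam_R _ _ _ (XZ_pos w).1, ih]

theorem XZ_inj : Function.Injective XZ_med := by
  intro w
  induction w with
  | nil =>
    intro w' h
    cases w' with
    | nil => rfl
    | cons b w' =>
      exfalso
      have h1 := XZ_pos w'
      cases b with
      | true =>
        have h2 : (1, 1) = ((XZ_med w').1 + (XZ_med w').2, (XZ_med w').2) := h
        have h3 := congrArg Prod.fst h2
        simp only at h3
        omega
      | false =>
        have h2 : (1, 1) = ((XZ_med w').1, (XZ_med w').1 + (XZ_med w').2) := h
        have h3 := congrArg Prod.snd h2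
        simp only at h3
        omega
  | cons b w ih =>
    intro w' h
    have h0 := XZ_pos w
    cases w' with
    | nil =>
      exfalso
      cases b with
      | true =>
        have h2 : ((XZ_med w).1 + (XZ_med w).2, (XZ_med w).2) = (1, 1) := h
        have h3 := congrArg Prod.fst h2
        simp only at h3
        omega
      | false =>
        have h2 : ((XZ_med w).1, (XZ_med w).1 + (XZ_med w).2) = (1, 1) := h
        have h3 := congrArg Prod.snd h2
        simp only at h3
        omega
    | cons b' w' =>
      have h1 := XZ_pos w'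
      cases b with
      | true =>
        cases b' with
        | true =>
          have h2 : ((XZ_med w).1 + (XZ_med w).2, (XZ_med w).2) =
            ((XZ_med w').1 + (XZ_med w').2, (XZ_med w').2) := h
          have h3 := congrArg Prod.fst h2
          have h4 := congrArg Prod.snd h2
          simp only at h3 h4
          rw [ih (Prod.ext (by omega) h4)]
        | false =>
          exfalso
          have h2 : ((XZ_med w).1 + (XZ_med w).2, (XZ_med w).2) =
            ((XZ_med w').1, (XZ_med w').1 + (XZ_med w').2) := h
          have h3 := congrArg Prod.fst h2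
          have h4 := congrArg Prod.snd h2
          simp only at h3 h4
          omega
      | false =>
        cases b' with
        | true =>
          exfalso
          have h2 : ((XZ_med w).1, (XZ_med w).1 + (XZ_med w).2) =
            ((XZ_med w').1 + (XZ_med w').2, (XZ_med w').2) := h
          have h3 := congrArg Prod.fst h2
          have h4 := congrArg Prod.snd h2
          simp only at h3 h4
          omega
        | false =>
          have h2 : ((XZ_med w).1, (XZ_med w).1 + (XZ_med w).2) =
            ((XZ_med w').1, (XZ_med w').1 + (XZ_med w').2) := h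
          have h3 := congrArg Prod.fst h2
          have h4 := congrArg Prod.snd h2
          simp only at h3 h4
          rw [ih (Prod.ext h3 (by omega))]

theorem XZ_surj : ∀ n p q : ℕ, p + q ≤ n → 1 ≤ p → 1 ≤ q → Nat.Coprime p q →
    ∃ w, XZ_med w = (p, q) := by
  intro n
  induction n with
  | zero => intro p q h hp; omega
  | succ n ih =>
    intro p q h hp hq hc
    rcases lt_trichotomy p q with hlt | heq | hgt
    · obtain ⟨w, hw⟩ := ih p (q - p) (by omega) hp (by omega) (by
        rw [← Nat.coprime_self_add_right, Nat.add_sub_cancel' hlt.le]; exact hc)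
      refine ⟨false :: w, ?_⟩
      change ((XZ_med w).1, (XZ_med w).1 + (XZ_med w).2) = (p, q)
      rw [hw]
      exact Prod.ext rfl (Nat.add_sub_cancel' hlt.le)
    · subst heq
      have : p = 1 := by rwa [Nat.coprime_self] at hc
      subst this
      exact ⟨[], rfl⟩
    · obtain ⟨w, hw⟩ := ih (p - q) q (by omega) (by omega) hq (by
        rw [← Nat.coprime_add_self_left, Nat.sub_add_cancel hgt.le]; exact hc)
      refine ⟨true :: w, ?_⟩
      change ((XZ_med w).1 + (XZ_med w).2, (XZ_med w).2) = (p, q)
      rw [hw]
      exact Prod.ext (Nat.sub_add_cancel hgt.le) rfl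

theorem XZ : XZ_stmt := by
  intro P R hfin
  have himg : XZ_med '' {w : List Bool | len (desc w P).2.2 ≤ R} = CS P R \ {(1, 0)} := by
    ext ⟨p, q⟩
    constructor
    · rintro ⟨w, hw, he⟩
      have h1 := XZ_pos w
      have h2 := XZ_cop w
      have h3 := XZ_lam w P
      rw [he] at h1 h2 h3
      simp only at h1 h2 h3
      refine ⟨⟨h1.1, h2, ?_⟩, ?_⟩
      · change Lam P p q ≤ R
        rw [h3]; exact hw
      · intro h4
        have h5 : (p, q) = (1, 0) := h4
        have h6 := congrArg Prod.snd h5
        simp only at h6
        omega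
    · rintro ⟨⟨h1, h2, h3⟩, h4⟩
      simp only at h1 h2 h3
      have hq : 1 ≤ q := by
        rcases Nat.eq_zero_or_pos q with h0 | h0
        · exfalso
          subst h0
          rw [Nat.coprime_zero_right] at h2
          subst h2
          exact h4 rfl
        · exact h0
      obtain ⟨w, hw⟩ := XZ_surj (p + q) p q le_rfl h1 hq h2
      refine ⟨w, ?_, hw⟩
      have h5 := XZ_lam w P
      rw [hw] at h5
      simp only at h5
      change len (desc w P).2.2 ≤ R
      rw [← h5]; exact h3
  have hfin2 : {w : List Bool | len (desc w P).2.2 ≤ R}.Finite := by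
    apply Set.Finite.of_finite_image _ XZ_inj.injOn
    rw [himg]
    exact hfin.subset Set.diff_subset
  refine ⟨hfin2, ?_⟩
  have hcard : {w : List Bool | len (desc w P).2.2 ≤ R}.ncard = (CS P R \ {(1, 0)}).ncard := by
    rw [← himg, Set.ncard_image_of_injective _ XZ_inj]
  rw [hcard]
  have hle : (CS P R \ {(1, 0)}).ncard ≤ (CS P R).ncard :=
    Set.ncard_le_ncard Set.diff_subset hfin
  have hge : (CS P R).ncard - 1 ≤ (CS P R \ {(1, 0)}).ncard :=
    Set.pred_ncard_le_ncard_diff_singleton _ _
  have hge' : (CS P R).ncard ≤ (CS P R \ {(1, 0)}).ncard + 1 := by omega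
  have h1 : ((CS P R \ {(1, 0)}).ncard : ℝ) ≤ (CS P R).ncard := by exact_mod_cast hle
  have h2 : ((CS P R).ncard : ℝ) ≤ (CS P R \ {(1, 0)}).ncard + 1 := by exact_mod_cast hge'
  rw [abs_le]
  constructor <;> linarith

end AM
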